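import Mathlib
import Pool.Agent.H19.TreeGirth

set_option autoImplicit false

namespace Pool.Agent.Results.MP_8cd00c_co.Counter
open SimpleGraph Pool.Agent.H19.TreeGirth

/-- no cycle is monochromatic -/
def Woody {V : Type} (G : SimpleGraph V) {k : ℕ} (col : G.edgeSet → Fin k) : Prop :=
  ∀ a (c : G.Walk a a), c.IsCycle → ¬ ∃ i, ∀ f : G.edgeSet, f.1 ∈ c.edges → col f = i

/-- no cycle with one edge removed is monochromatic -/
def StronglyWoody {V : Type} (G : SimpleGraph V) {k : ℕ} (col : G.edgeSet → Fin k) : Prop :=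
  ∀ a (c : G.Walk a a), c.IsCycle → ∀ e ∈ c.edges,
    ¬ ∃ i, ∀ f : G.edgeSet, f.1 ∈ c.edges → f.1 ≠ e → col f = i

/-- arboricity -/
noncomputable def arb {V : Type} (G : SimpleGraph V) : ℕ :=
  sInf {k | ∃ col : G.edgeSet → Fin k, Woody G col}

/-- strong arboricity -/
noncomputable def zeta {V : Type} (G : SimpleGraph V) : ℕ :=
  sInf {k | ∃ col : G.edgeSet → Fin k, StronglyWoody G col}

lemma ne_set {V : Type} [Fintype V] (G : SimpleGraph V) :
    {k | ∃ col : G.edgeSet → Fin k, StronglyWoody G col}.Nonempty := by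
  classical
  refine ⟨_, Fintype.equivFin G.edgeSet, ?_⟩
  rintro a c hc e he ⟨i, hi⟩
  have h3 : 3 ≤ c.edges.toFinset.card := by
    rw [List.toFinset_card_of_nodup hc.isTrail.edges_nodup, Walk.length_edges]
    exact hc.three_le_length
  have h1 : 1 < (c.edges.toFinset.erase e).card := by
    have := Finset.pred_card_le_card_erase (s := c.edges.toFinset) (a := e)
    omega
  obtain ⟨x, hx, y, hy, hxy⟩ := Finset.one_lt_card.1 h1
  simp only [Finset.mem_erase, List.mem_toFinset] at hx hy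
  have e1 := hi ⟨x, c.edges_subset_edgeSet hx.2⟩ hx.2 hx.1
  have e2 := hi ⟨y, c.edges_subset_edgeSet hy.2⟩ hy.2 hy.1
  exact hxy (congrArg Subtype.val ((Fintype.equivFin G.edgeSet).injective (e1.trans e2.symm)))

lemma three {V : Type} [Fintype V] [Nontrivial V] (A B : SimpleGraph V) (hA : A.IsTree)
    (hB : B.IsTree) (hd : ∀ a b, A.Adj a b → ¬ B.Adj a b) (col : (A ⊔ B).edgeSet → Fin 2) :
    ¬ StronglyWoody (A ⊔ B) col := by
  classical
  intro hs
  let C : Fin 2 → SimpleGraph V := fun i =>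
    fromEdgeSet {e | ∃ h : e ∈ (A ⊔ B).edgeSet, col ⟨e, h⟩ = i}
  have hC : ∀ i e, e ∈ (C i).edgeSet ↔ ∃ h : e ∈ (A ⊔ B).edgeSet, col ⟨e, h⟩ = i := by
    intro i e
    simp only [C, edgeSet_fromEdgeSet, Set.mem_diff, Set.mem_setOf_eq]
    exact ⟨fun h => h.1, fun h => ⟨h, (A ⊔ B).not_isDiag_of_mem_edgeSet h.1⟩⟩
  have le : ∀ i, C i ≤ A ⊔ B := fun i => edgeSet_subset_edgeSet.1 fun e he => ((hC i e).1 he).1
  have ac : ∀ i, (C i).IsAcyclic := by
    intro i a c hc
    obtain ⟨e, he⟩ : ∃ e, e ∈ c.edges := List.exists_mem_of_length_pos (by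
      have := hc.three_le_length; rw [Walk.length_edges]; omega)
    refine hs a (c.mapLe (le i)) (hc.mapLe _) e (by simpa using he) ⟨i, fun f hf _ => ?_⟩
    exact ((hC i f.1).1 (c.edges_subset_edgeSet (by simpa using hf))).2
  choose T hT1 hT2 hT3 using fun i =>
    (connected_top (V := V)).exists_isTree_le_of_le_of_isAcyclic le_top (ac i)
  have cd : ∀ X : SimpleGraph V, X.IsTree → X.edgeSet.ncard + 1 = Nat.card V := fun X hX =>
    (isTree_iff_connected_and_card.1 hX).2
  have sub : ∀ i, (C i).edgeSet ⊆ (T i).edgeSet := fun i => edgeSet_mono (hT1 i)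
  have l0 := Set.ncard_le_ncard (sub 0)
  have l1 := Set.ncard_le_ncard (sub 1)
  have u1 : (A ⊔ B).edgeSet.ncard = A.edgeSet.ncard + B.edgeSet.ncard := by
    rw [edgeSet_sup, Set.ncard_union_eq]
    rw [Set.disjoint_left]
    intro e
    induction e using Sym2.ind with
    | _ x y => exact hd x y
  have u2 : (A ⊔ B).edgeSet.ncard ≤ (C 0).edgeSet.ncard + (C 1).edgeSet.ncard := by
    refine (Set.ncard_le_ncard fun e he => ?_).trans (Set.ncard_union_le _ _)
    have : ∀ j : Fin 2, j = 0 ∨ j = 1 := by decide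
    rcases this (col ⟨e, he⟩) with h | h
    · exact Or.inl ((hC 0 e).2 ⟨he, h⟩)
    · exact Or.inr ((hC 1 e).2 ⟨he, h⟩)
  have c0 := cd _ (hT3 0)
  have c1 := cd _ (hT3 1)
  have cA := cd _ hA
  have cB := cd _ hB
  have two : 1 < Nat.card V := Finite.one_lt_card
  have e0 : C 0 = T 0 := edgeSet_injective (Set.eq_of_subset_of_ncard_le (sub 0) (by omega))
  obtain ⟨e, he⟩ : (C 1).edgeSet.Nonempty := Set.nonempty_of_ncard_ne_zero (by omega)
  induction e using Sym2.ind with
  | _ u v =>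
    obtain ⟨h1, h2⟩ := (hC 1 _).1 he
    have con : (C 0).Connected := e0 ▸ (hT3 0).connected
    obtain ⟨p, hp⟩ := con.exists_isPath v u
    have ed : ∀ f ∈ p.edges, ∃ h : f ∈ (A ⊔ B).edgeSet, col ⟨f, h⟩ = 0 := fun f hf =>
      (hC 0 f).1 (p.edges_subset_edgeSet hf)
    have hn : s(u, v) ∉ (p.mapLe (le 0)).edges := by
      intro h
      obtain ⟨_, h3⟩ := ed _ (by simpa using h)
      rw [h2] at h3
      exact absurd h3 (by decide)
    refine hs u (.cons h1 (p.mapLe (le 0))) ((Walk.cons_isCycle_iff _ _).2 ⟨hp.mapLe _, hn⟩)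
      s(u, v) (by simp) ⟨0, fun f hf hne => ?_⟩
    rw [Walk.edges_cons, List.mem_cons] at hf
    exact (ed f.1 (by simpa using hf.resolve_left hne)).2

theorem result : ∀ g : ℕ, ∃ (V : Type) (_ : Fintype V) (G : SimpleGraph V),
    arb G ≤ 2 ∧ (g : ℕ∞) ≤ G.egirth ∧ arb G < zeta G ∧ ∀ v, (G.neighborSet v).ncard ≤ 8 := by
  classical
  intro g
  have hN : 3 * 9 ^ (g + 1) < Fintype.card (Fin (3 * 9 ^ (g + 1) + 1)) := by simp
  obtain ⟨A, hA, dA, -, gA⟩ := tree (⊥ : SimpleGraph (Fin (3 * 9 ^ (g + 1) + 1))) (g + 1)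
    (by omega) hN (by simp [dg]) fun a c hc => absurd hc (isAcyclic_bot c)
  rw [bot_sup_eq] at gA
  obtain ⟨B, hB, dB, hd, gB⟩ := tree A (g + 1) (by omega) hN dA gA
  have : Nontrivial (Fin (3 * 9 ^ (g + 1) + 1)) :=
    Fintype.one_lt_card_iff_nontrivial.1 (by
      have : 0 < 9 ^ (g + 1) := by positivity
      omega)
  have h2 : arb (A ⊔ B) ≤ 2 := by
    refine Nat.sInf_le ⟨fun f => if f.1 ∈ A.edgeSet then 0 else 1, ?_⟩
    rintro a c hc ⟨i, hi⟩
    by_cases h : ∀ e ∈ c.edges, e ∈ A.edgeSet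
    · exact hA.isAcyclic _ (hc.transfer h)
    · push Not at h
      obtain ⟨e, he, hne⟩ := h
      have e1 := hi ⟨e, c.edges_subset_edgeSet he⟩ he
      refine hB.isAcyclic _ (hc.transfer fun f hf => ?_)
      have e2 := hi ⟨f, c.edges_subset_edgeSet hf⟩ hf
      have m := c.edges_subset_edgeSet hf
      rw [edgeSet_sup] at m
      refine m.resolve_left fun hfA => ?_
      simp only [hne, hfA, if_true, if_false] at e1 e2
      exact absurd (e1.trans e2.symm) (by decide)
  refine ⟨_, inferInstance, A ⊔ B, h2, le_egirth.2 fun a c hc => ?_, ?_, fun v => ?_⟩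
  · exact_mod_cast (Nat.le_succ g).trans (gB a c hc)
  · obtain ⟨col, hcol⟩ := Nat.sInf_mem (ne_set (A ⊔ B))
    by_contra hle
    have hk : zeta (A ⊔ B) ≤ 2 := by omega
    refine three A B hA hB hd (fun f => Fin.castLE hk (col f)) ?_
    rintro a c hc e he ⟨i, hi⟩
    obtain ⟨f0, hf0, hf1⟩ : ∃ f, f ∈ c.edges ∧ f ≠ e := by
      by_contra hno
      push Not at hno
      have : c.edges.toFinset ⊆ {e} := fun f hf => by simpa using hno f (by simpa using hf)
      have h1 := Finset.card_le_card this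
      rw [List.toFinset_card_of_nodup hc.isTrail.edges_nodup, Walk.length_edges] at h1
      have := hc.three_le_length
      simp at h1
      omega
    refine hcol a c hc e he ⟨col ⟨f0, c.edges_subset_edgeSet hf0⟩, fun f hf hne => ?_⟩
    exact Fin.castLE_injective hk ((hi f hf hne).trans (hi _ hf0 hf1).symm)
  · have := dg_sup A B v
    have := dA v
    have := dB v
    show dg _ v ≤ 8
    omega

end Pool.Agent.Results.MP_8cd00c_co.Counter
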